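import Mathlib
import Pool.Agent.H6Delta

set_option autoImplicit false

open Set Cardinal

namespace Pool.Agent.Results.MP_e5b57d_lc.InfiniteMono

/-- `δ = Δ(x,y)`: `δ` is the least place where `x` and `y` differ. -/
def IsDelta {K : Type} [LinearOrder K] (x y : K → Bool) (δ : K) : Prop :=
  (∀ β < δ, x β = y β) ∧ x δ ≠ y δ

/-- Almost `Δ`-regressive colourings: `c(x,y) < max {Δ(x,y), μ}` for a fixed `μ < κ`. -/
def AlmostReg {K : Type} [LinearOrder K] (c : Sym2 (K → Bool) → K) : Prop :=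
  ∃ μ : K, ∀ x y δ, IsDelta x y δ → c s(x, y) < max δ μ

/-- Monochromatic sets. -/
def Mono {K : Type} (c : Sym2 (K → Bool) → K) (Y : Set (K → Bool)) : Prop :=
  ∃ i, ∀ x ∈ Y, ∀ y ∈ Y, x ≠ y → c s(x, y) = i

/-- If `κ` is uncountable and `2^μ < 2^κ` for all `μ < κ`, every almost `Δ`-regressive colouring
has an uncountable (so infinite) monochromatic set. -/
theorem result (κ : Cardinal.{0}) (hκ : ℵ₀ < κ) (h2 : ∀ μ < κ, (2 : Cardinal.{0}) ^ μ < 2 ^ κ)
    (c : Sym2 (κ.ord.ToType → Bool) → κ.ord.ToType) (hc : AlmostReg c) :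
    ∃ Y : Set (κ.ord.ToType → Bool), Y.Infinite ∧ ¬ Y.Countable ∧ Mono c Y := by
  obtain ⟨m, hm⟩ := hc
  obtain ⟨Y, i, h1, h3⟩ := Pool.Agent.H6Delta.main' κ hκ h2 c m (fun x y δ a b => hm x y δ ⟨a, b⟩)
  have h4 : ¬ Y.Countable := fun h => not_le.2 h1 (le_aleph0_iff_set_countable.2 h)
  exact ⟨Y, fun h => h4 h.countable, h4, i, h3⟩

end Pool.Agent.Results.MP_e5b57d_lc.InfiniteMono
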